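import Pool.Agent.Lib.P1f4382.Count

set_option autoImplicit false

/-!
The 3-graph: blow-up of the point-line incidences of the affine plane over `ZMod p`,
intersected with arbitrary bits depending on (point, line, third vertex).
-/

namespace Pool.Agent.Lib.P1f4382

open Finset

variable {p : ℕ} [hp : Fact p.Prime]

abbrev Pt (p : ℕ) : Type := ZMod p × ZMod p

/-- incidence of the point `u = (a, b)` and the line `v = (s, t)`: `b = s * a + t` -/
def inc (u v : Pt p) : Prop := u.2 = v.1 * u.1 + v.2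

instance (u v : Pt p) : Decidable (inc u v) := by unfold inc; infer_instance

theorem inc_K22 {u u' v v' : Pt p} (h1 : inc u v) (h2 : inc u v') (h3 : inc u' v)
    (h4 : inc u' v') : u = u' ∨ v = v' := by
  unfold inc at h1 h2 h3 h4
  obtain ⟨a, b⟩ := u
  obtain ⟨a', b'⟩ := u'
  obtain ⟨s, t⟩ := v
  obtain ⟨s', t'⟩ := v'
  simp only at h1 h2 h3 h4
  have key : (s - s') * (a - a') = 0 := by linear_combination (-1 : ZMod p) * h1 + h2 + h3 - h4
  rcases mul_eq_zero.1 key with h | h
  · right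
    have hs : s = s' := sub_eq_zero.1 h
    subst hs
    have ht : t = t' := by linear_combination h2 - h1
    rw [ht]
  · left
    have ha : a = a' := sub_eq_zero.1 h
    subst ha
    have hb : b = b' := by linear_combination h1 - h3
    rw [hb]

/-- index set of incidences -/
abbrev Idx (p : ℕ) : Type := ZMod p × ZMod p × ZMod p

def idxOf (u v : Pt p) : Idx p := (u.1, v.1, v.2)
def i₁ (i : Idx p) : Pt p := (i.1, i.2.1 * i.1 + i.2.2)
def i₂ (i : Idx p) : Pt p := (i.2.1, i.2.2)

theorem inc_i (i : Idx p) : inc (i₁ i) (i₂ i) := rfl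

theorem idxOf_i (i : Idx p) : idxOf (i₁ i) (i₂ i) = i := rfl

/-- The 3-graph attached to the class maps `cx`, `cy` and the bits `R`. -/
def G {X Y Z : Type*} (cx : X → Pt p) (cy : Y → Pt p) (R : Idx p × Z → Bool) (x : X) (y : Y)
    (z : Z) : Prop :=
  inc (cx x) (cy y) ∧ R (idxOf (cx x) (cy y), z) = true

instance {X Y Z : Type*} (cx : X → Pt p) (cy : Y → Pt p) (R : Idx p × Z → Bool) (x : X) (y : Y)
    (z : Z) : Decidable (G cx cy R x y z) := by unfold G; infer_instance

/-- the numerical contradiction -/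
theorem numeric (p K l n N : ℕ) (hp2 : 2 ≤ p) (hK : 8 * K ≤ p) (hN : N = 8 ^ K + 1)
    (hn : n = p * p * (8 * N)) (hl : l = p ^ 5 * N)
    (h : 2 ^ (8 * l) ≤ ((2 ^ K) ^ (p * p * (p * p)) * ((2 ^ K) ^ (p * p * n) *
      ((2 ^ K) ^ (p * p * n) * 2 ^ (2 ^ K * 2 ^ K * 2 ^ K)))) * 2 ^ (5 * l)) : False := by
  have e1 : (2 : ℕ) ^ K * 2 ^ K * 2 ^ K = 8 ^ K := by
    rw [← mul_pow, ← mul_pow]; norm_num
  rw [e1] at h
  simp only [← pow_mul, ← pow_add] at h
  have h2 := (Nat.pow_le_pow_iff_right (by norm_num : 1 < 2)).1 h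
  -- 8 l ≤ K p^4 + (K p^2 n + (K p^2 n + 8^K)) + 5 l
  have a1 : K * (p * p * n) * 1 ≤ l := by
    have : 8 * (K * (p * p * n)) ≤ p * (p * p * n) := by
      calc 8 * (K * (p * p * n)) = 8 * K * (p * p * n) := by ring
        _ ≤ p * (p * p * n) := Nat.mul_le_mul_right _ hK
    have e : p * (p * p * n) = 8 * l := by rw [hn, hl]; ring
    omega
  have a2 : 8 * (K * (p * p * (p * p))) ≤ p ^ 5 := by
    calc 8 * (K * (p * p * (p * p))) = 8 * K * (p * p * (p * p)) := by ring
      _ ≤ p * (p * p * (p * p)) := Nat.mul_le_mul_right _ hK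
      _ = p ^ 5 := by ring
  have a3 : l = p ^ 5 * 8 ^ K + p ^ 5 := by rw [hl, hN]; ring
  have a4 : 32 * 8 ^ K ≤ p ^ 5 * 8 ^ K :=
    Nat.mul_le_mul_right _ (by calc 32 = 2 ^ 5 := by norm_num
                              _ ≤ p ^ 5 := Nat.pow_le_pow_left hp2 5)
  have a5 : 0 < 8 ^ K := by positivity
  omega

/-- The core: for suitable bits every approximation by `2 ^ K` graphs has many errors. -/
theorem core (K N n : ℕ) (hK : 8 * K ≤ p) (hN : N = 8 ^ K + 1)
    (hn : n = p * p * (8 * N)) (e : Fin n ≃ Pt p × Fin (8 * N)) :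
    ∃ R : Idx p × Fin n → Bool, ∀ (α : Fin n → Fin n → Fin (2 ^ K))
      (β : Fin n → Fin n → Fin (2 ^ K)) (γ : Fin n → Fin n → Fin (2 ^ K))
      (f : Fin (2 ^ K) → Fin (2 ^ K) → Fin (2 ^ K) → Bool),
      n ^ 3 < 8 * p * (univ.filter (fun t : Fin n × Fin n × Fin n =>
        ¬ (G (fun x => (e x).1) (fun y => (e y).1) R t.1 t.2.1 t.2.2 ↔
          f (α t.1 t.2.1) (β t.1 t.2.2) (γ t.2.1 t.2.2) = true))).card := by
  classical
  by_contra hcon
  have hcon : ∀ R : Idx p × Fin n → Bool, ∃ (α : Fin n → Fin n → Fin (2 ^ K))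
      (β : Fin n → Fin n → Fin (2 ^ K)) (γ : Fin n → Fin n → Fin (2 ^ K))
      (f : Fin (2 ^ K) → Fin (2 ^ K) → Fin (2 ^ K) → Bool),
      8 * p * (univ.filter (fun t : Fin n × Fin n × Fin n =>
        ¬ (G (fun x => (e x).1) (fun y => (e y).1) R t.1 t.2.1 t.2.2 ↔
          f (α t.1 t.2.1) (β t.1 t.2.2) (γ t.2.1 t.2.2) = true))).card ≤ n ^ 3 := by
    intro R
    by_contra hR
    exact hcon ⟨R, fun α β γ f => by
      by_contra hlt
      exact hR ⟨α, β, γ, f, not_lt.1 hlt⟩⟩
  have hp2 : 2 ≤ p := hp.out.two_le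
  set l := p ^ 5 * N with hl
  have hNpos : 0 < N := by rw [hN]; positivity
  have hcard : Fintype.card (ZMod p) = p := ZMod.card p
  refine numeric p K l n N hp2 hK hN hn hl ?_
  have hc := count (I := Idx p) (U := Pt p) (V := Pt p) (Z := Fin n) (M := 2 ^ K) i₁ i₂ l l ?_
    le_rfl ?_
  · rw [card_data] at hc
    simpa only [Fintype.card_prod, hcard, Fintype.card_fin] using hc
  · simp only [Fintype.card_prod, hcard, Fintype.card_fin]
    rw [hn, hl]; ring
  · intro R
    obtain ⟨α, β, γ, f, hE⟩ := hcon R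
    set E := univ.filter (fun t : Fin n × Fin n × Fin n =>
        ¬ (G (fun x => (e x).1) (fun y => (e y).1) R t.1 t.2.1 t.2.2 ↔
          f (α t.1 t.2.1) (β t.1 t.2.2) (γ t.2.1 t.2.2) = true)) with hEdef
    -- the fibre over a pair of representatives
    have hfib : ∃ st : Fin (8 * N) × Fin (8 * N),
        (E.filter (fun t => ((e t.1).2, (e t.2.1).2) = st)).card ≤ l := by
      by_contra hno
      push Not at hno
      have hsum : E.card = ∑ st : Fin (8 * N) × Fin (8 * N),
          (E.filter (fun t => ((e t.1).2, (e t.2.1).2) = st)).card :=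
        Finset.card_eq_sum_card_fiberwise (fun t _ => Finset.mem_univ _)
      have h1 : ∑ _st : Fin (8 * N) × Fin (8 * N), (l + 1) ≤ E.card := by
        rw [hsum]
        exact Finset.sum_le_sum (fun st _ => hno st)
      rw [Finset.sum_const, smul_eq_mul, Finset.card_univ, Fintype.card_prod, Fintype.card_fin]
        at h1
      have h2 : 8 * p * (8 * N * (8 * N) * (l + 1)) ≤ n ^ 3 :=
        (Nat.mul_le_mul_left _ h1).trans hE
      have h3 : 8 * p * (8 * N * (8 * N) * l) = n ^ 3 := by rw [hn, hl]; ring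
      have h4 : 8 * p * (8 * N * (8 * N) * (l + 1)) =
        8 * p * (8 * N * (8 * N) * l) + 8 * p * (8 * N * (8 * N)) := by ring
      have h5 : 0 < 8 * p * (8 * N * (8 * N)) := by positivity
      omega
    obtain ⟨⟨s, t⟩, hst⟩ := hfib
    refine ⟨(fun u v => α (e.symm (u, s)) (e.symm (v, t)), fun u z => β (e.symm (u, s)) z,
      fun v z => γ (e.symm (v, t)) z, f), ?_⟩
    refine le_trans ?_ hst
    refine Finset.card_le_card_of_injOn
      (fun j => (e.symm (i₁ j.1, s), e.symm (i₂ j.1, t), j.2)) ?_ ?_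
    · intro j hj
      rw [Finset.mem_coe, Finset.mem_filter] at hj
      rw [Finset.mem_coe, Finset.mem_filter, hEdef, Finset.mem_filter]
      refine ⟨⟨Finset.mem_univ _, ?_⟩, ?_⟩
      · have h1 := hj.2
        unfold pred at h1
        simp only at h1
        unfold G
        simp only [Equiv.apply_symm_apply]
        intro h2
        apply h1
        rw [Bool.eq_iff_iff]
        rw [← h2]
        exact ⟨fun h => ⟨inc_i j.1, h⟩, fun h => h.2⟩
      · simp only [Equiv.apply_symm_apply]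
    · intro j _ j' _ hjj
      simp only [Prod.mk.injEq, EmbeddingLike.apply_eq_iff_eq, and_true] at hjj
      obtain ⟨h1, h2, h3⟩ := hjj
      have h4 : j.1 = j'.1 := by
        rw [← idxOf_i j.1, ← idxOf_i j'.1, h1, h2]
      exact Prod.ext h4 h3

end Pool.Agent.Lib.P1f4382
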