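import Mathlib

set_option autoImplicit false

/-!
Counting lemmas: Hamming balls of Boolean functions and approximation by graph partitions.
-/

namespace Pool.Agent.Lib.P1f4382

open Finset

section ball

variable {J : Type*} [Fintype J] [DecidableEq J]

/-- Generating function of the Hamming distance. -/
theorem sum_weight (F : J → Bool) :
    ∑ R : J → Bool, ∏ j, (if R j = F j then 8 else 1 : ℕ) = 9 ^ Fintype.card J := by
  have h := Finset.prod_univ_sum (fun _ : J => (Finset.univ : Finset Bool))
    (fun j b => (if b = F j then 8 else 1 : ℕ))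
  rw [Fintype.piFinset_univ] at h
  rw [← h]
  rw [← Finset.card_univ, ← Finset.prod_const]
  refine Finset.prod_congr rfl (fun j _ => ?_)
  cases F j <;> simp

/-- the Hamming ball -/
def ball (F : J → Bool) (r : ℕ) : Finset (J → Bool) :=
  univ.filter (fun R => (univ.filter (fun j => R j ≠ F j)).card ≤ r)

theorem ball_card (F : J → Bool) (r l : ℕ) (hJ : Fintype.card J = 8 * l) (hr : r ≤ l) :
    (ball F r).card ≤ 2 ^ (5 * l) := by
  have h1 : (ball F r).card * 8 ^ (7 * l) ≤ 9 ^ (8 * l) := by
    calc (ball F r).card * 8 ^ (7 * l) = ∑ _R ∈ ball F r, 8 ^ (7 * l) := by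
          rw [Finset.sum_const, smul_eq_mul]
      _ ≤ ∑ R ∈ ball F r, ∏ j, (if R j = F j then 8 else 1 : ℕ) := by
          refine Finset.sum_le_sum (fun R hR => ?_)
          rw [ball, Finset.mem_filter] at hR
          rw [Finset.prod_ite, Finset.prod_const, Finset.prod_const_one, mul_one]
          apply Nat.pow_le_pow_right (by norm_num)
          have h2 := Finset.card_filter_add_card_filter_not (s := (univ : Finset J))
            (fun j => R j = F j)
          rw [Finset.card_univ, hJ] at h2
          have h3 := hR.2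
          have h4 : (univ.filter (fun j => ¬ R j = F j)).card ≤ r := h3
          omega
      _ ≤ ∑ R : J → Bool, ∏ j, (if R j = F j then 8 else 1 : ℕ) :=
          Finset.sum_le_sum_of_subset (Finset.subset_univ _)
      _ = 9 ^ (8 * l) := by rw [sum_weight, hJ]
  have h2 : (9 : ℕ) ^ (8 * l) ≤ 2 ^ (5 * l) * 8 ^ (7 * l) := by
    rw [pow_mul, pow_mul, pow_mul, ← mul_pow]
    exact Nat.pow_le_pow_left (by norm_num) l
  have h3 : (ball F r).card * 8 ^ (7 * l) ≤ 2 ^ (5 * l) * 8 ^ (7 * l) := h1.trans h2
  exact Nat.le_of_mul_le_mul_right h3 (by positivity)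

end ball

section approx

variable {I U V Z : Type*} [Fintype I] [Fintype U] [Fintype V] [Fintype Z]
  [DecidableEq I] [DecidableEq U] [DecidableEq V] [DecidableEq Z]

/-- the data of an approximation -/
abbrev Data (U V Z : Type*) (M : ℕ) : Type _ :=
  (U → V → Fin M) × (U → Z → Fin M) × (V → Z → Fin M) × (Fin M → Fin M → Fin M → Bool)

/-- the function predicted on the index set -/
def pred {M : ℕ} (i₁ : I → U) (i₂ : I → V) (T : Data U V Z M) : I × Z → Bool :=
  fun j => T.2.2.2 (T.1 (i₁ j.1) (i₂ j.1)) (T.2.1 (i₁ j.1) j.2) (T.2.2.1 (i₂ j.1) j.2)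

theorem card_data (M : ℕ) : Fintype.card (Data U V Z M) =
    M ^ (Fintype.card U * Fintype.card V) * (M ^ (Fintype.card U * Fintype.card Z) *
      (M ^ (Fintype.card V * Fintype.card Z) * 2 ^ (M * M * M))) := by
  simp only [Data, Fintype.card_prod, Fintype.card_fun, Fintype.card_fin, Fintype.card_bool]
  simp only [← pow_mul]
  rw [mul_comm (Fintype.card V) (Fintype.card U), mul_comm (Fintype.card Z) (Fintype.card U),
    mul_comm (Fintype.card Z) (Fintype.card V)]

/-- If every `R` is approximated, then there are few of them. -/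
theorem count {M : ℕ} (i₁ : I → U) (i₂ : I → V) (r l : ℕ)
    (hJ : Fintype.card I * Fintype.card Z = 8 * l) (hr : r ≤ l)
    (h : ∀ R : I × Z → Bool, ∃ T : Data U V Z M,
      (univ.filter (fun j => R j ≠ pred i₁ i₂ T j)).card ≤ r) :
    2 ^ (8 * l) ≤ Fintype.card (Data U V Z M) * 2 ^ (5 * l) := by
  classical
  have h1 : (univ : Finset (I × Z → Bool)) ⊆
      (univ : Finset (Data U V Z M)).biUnion (fun T => ball (pred i₁ i₂ T) r) := by
    intro R _
    obtain ⟨T, hT⟩ := h R
    refine Finset.mem_biUnion.2 ⟨T, Finset.mem_univ _, ?_⟩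
    rw [ball, Finset.mem_filter]
    exact ⟨Finset.mem_univ _, hT⟩
  have h2 := (Finset.card_le_card h1).trans Finset.card_biUnion_le
  have h3 : (univ : Finset (I × Z → Bool)).card = 2 ^ (8 * l) := by
    rw [Finset.card_univ, Fintype.card_fun, Fintype.card_bool, Fintype.card_prod, hJ]
  rw [h3] at h2
  refine h2.trans ?_
  calc ∑ T : Data U V Z M, (ball (pred i₁ i₂ T) r).card
      ≤ ∑ _T : Data U V Z M, 2 ^ (5 * l) := by
        refine Finset.sum_le_sum (fun T _ => ball_card _ r l ?_ hr)
        rw [Fintype.card_prod, hJ]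
    _ = Fintype.card (Data U V Z M) * 2 ^ (5 * l) := by
        rw [Finset.sum_const, Finset.card_univ, smul_eq_mul]

end approx

end Pool.Agent.Lib.P1f4382
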