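import Pool.Agent.Lib.P1f4382.Core

set_option autoImplicit false

namespace Pool.Agent.Lib.P1f4382

open Finset

section vc

variable {p : ℕ} [hp : Fact p.Prime] {X Y Z : Type*} {cx : X → Pt p} {cy : Y → Pt p}
  {R : Idx p × Z → Bool}

theorem G_congr_x {x x' : X} (h : cx x = cx x') (y : Y) (z : Z) :
    G cx cy R x y z ↔ G cx cy R x' y z := by unfold G; rw [h]

theorem G_congr_y {y y' : Y} (h : cy y = cy y') (x : X) (z : Z) :
    G cx cy R x y z ↔ G cx cy R x y' z := by unfold G; rw [h]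

/-- grid in `X × Y` -/
theorem vc_xy (a₀ a₁ : X) (b₀ b₁ : Y) (z w w' : Z)
    (h00 : G cx cy R a₀ b₀ z) (h01 : G cx cy R a₀ b₁ z) (h10 : G cx cy R a₁ b₀ z)
    (h11 : G cx cy R a₁ b₁ z)
    (hw : G cx cy R a₀ b₀ w) (hw1 : ¬ G cx cy R a₁ b₀ w)
    (hw' : G cx cy R a₀ b₀ w') (hw1' : ¬ G cx cy R a₀ b₁ w') : False := by
  rcases inc_K22 h00.1 h01.1 h10.1 h11.1 with h | h
  · exact hw1 ((G_congr_x h _ _).1 hw)
  · exact hw1' ((G_congr_y h _ _).1 hw')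

/-- grid in `X × Z` -/
theorem vc_xz (a₀ a₁ : X) (z₀ z₁ : Z) (c c' : Y)
    (h00 : G cx cy R a₀ c z₀) (h11 : G cx cy R a₁ c z₁) (h01 : ¬ G cx cy R a₀ c z₁)
    (h01' : G cx cy R a₀ c' z₁) (h10' : G cx cy R a₁ c' z₀) : False := by
  rcases inc_K22 h00.1 h01'.1 h11.1 h10'.1 with h | h
  · exact h01 ((G_congr_x h _ _).2 h11)
  · exact h01 ((G_congr_y h _ _).2 h01')

/-- grid in `Y × Z` -/
theorem vc_yz (b₀ b₁ : Y) (z₀ z₁ : Z) (c c' : X)
    (h00 : G cx cy R c b₀ z₀) (h11 : G cx cy R c b₁ z₁) (h01 : ¬ G cx cy R c b₀ z₁)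
    (h01' : G cx cy R c' b₀ z₁) (h10' : G cx cy R c' b₁ z₀) : False := by
  rcases inc_K22 h00.1 h11.1 h01'.1 h10'.1 with h | h
  · exact h01 ((G_congr_x h _ _).2 h01')
  · exact h01 ((G_congr_y h _ _).2 h11)

end vc

/-- Bertrand-type choice of the prime. -/
theorem exists_prime_of_eps (ε : ℝ) (h0 : 0 < ε) (h1 : ε ≤ 1 / 16) :
    ∃ p : ℕ, p.Prime ∧ 1 / (16 * ε) < p ∧ (p : ℝ) ≤ 1 / (8 * ε) := by
  have hx : (1 : ℝ) ≤ 1 / (16 * ε) := by
    rw [le_div_iff₀ (by positivity)]; linarith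
  set m := ⌊1 / (16 * ε)⌋₊ with hm
  have hm1 : 1 ≤ m := by
    rw [hm]; exact (Nat.one_le_floor_iff _).2 hx
  obtain ⟨p, hp, hlt, hle⟩ := Nat.exists_prime_lt_and_le_two_mul m (by omega)
  refine ⟨p, hp, ?_, ?_⟩
  · have := Nat.lt_floor_add_one (1 / (16 * ε))
    have h2 : (m : ℝ) + 1 ≤ p := by exact_mod_cast hlt
    rw [← hm] at this
    linarith
  · have h2 : (m : ℝ) ≤ 1 / (16 * ε) := Nat.floor_le (by positivity)
    have h3 : (p : ℝ) ≤ 2 * m := by exact_mod_cast hle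
    calc (p : ℝ) ≤ 2 * (1 / (16 * ε)) := by linarith
      _ = 1 / (8 * ε) := by field_simp; norm_num

/-- exponentials beat polynomials, along primes -/
theorem exists_prime_poly (C D : ℝ) :
    ∃ p : ℕ, p.Prime ∧ C * (8 * (p : ℝ)) ^ D ≤ (2 : ℝ) ^ (p / 8 : ℕ) := by
  -- C * (8 p)^D = o(2^(p/8 - 1))
  have h1 : (fun x : ℝ => x ^ D) =o[Filter.atTop] fun x : ℝ => Real.exp ((Real.log 2 / 64) * x) :=
    isLittleO_rpow_exp_pos_mul_atTop D (by positivity)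
  have h2 : Filter.Tendsto (fun p : ℕ => 8 * (p : ℝ)) Filter.atTop Filter.atTop :=
    Filter.Tendsto.const_mul_atTop (by norm_num) tendsto_natCast_atTop_atTop
  have h3 := h1.comp_tendsto h2
  have h4 := (h3.def (c := 1 / (2 * (|C| + 1))) (by positivity))
  obtain ⟨N, hN⟩ := Filter.eventually_atTop.1 h4
  obtain ⟨p, hpN, hp⟩ := Nat.exists_infinite_primes (max N 1)
  refine ⟨p, hp, ?_⟩
  have h5 := hN p (le_trans (le_max_left _ _) hpN)
  simp only [Function.comp] at h5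
  have hpos : 0 < 8 * (p : ℝ) := by
    have : 0 < p := hp.pos
    positivity
  rw [Real.norm_of_nonneg (Real.rpow_nonneg hpos.le _), Real.norm_of_nonneg (Real.exp_pos _).le]
    at h5
  have h6 : Real.exp (Real.log 2 / 64 * (8 * (p : ℝ))) = (2 : ℝ) ^ ((p : ℝ) / 8) := by
    rw [Real.rpow_def_of_pos (by norm_num)]
    congr 1; ring
  rw [h6] at h5
  have h7 : (2 : ℝ) ^ ((p : ℝ) / 8) ≤ 2 * (2 : ℝ) ^ (p / 8 : ℕ) := by
    rw [← Real.rpow_natCast]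
    have : (2 : ℝ) * (2 : ℝ) ^ (((p / 8 : ℕ)) : ℝ) = (2 : ℝ) ^ ((((p / 8 : ℕ)) : ℝ) + 1) := by
      rw [Real.rpow_add_one (by norm_num)]; ring
    rw [this]
    apply Real.rpow_le_rpow_of_exponent_le (by norm_num)
    have h8 : p < 8 * (p / 8) + 8 := by omega
    have h9 : (p : ℝ) < 8 * ((p / 8 : ℕ) : ℝ) + 8 := by exact_mod_cast h8
    linarith
  have hC : C ≤ |C| + 1 := by linarith [le_abs_self C]
  calc C * (8 * (p : ℝ)) ^ D ≤ (|C| + 1) * (8 * (p : ℝ)) ^ D :=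
        mul_le_mul_of_nonneg_right hC (Real.rpow_nonneg hpos.le _)
    _ ≤ (|C| + 1) * (1 / (2 * (|C| + 1)) * (2 : ℝ) ^ ((p : ℝ) / 8)) :=
        mul_le_mul_of_nonneg_left h5 (by positivity)
    _ = (2 : ℝ) ^ ((p : ℝ) / 8) / 2 := by field_simp
    _ ≤ (2 : ℝ) ^ (p / 8 : ℕ) := by linarith

/-- The bad 3-graph for a prime `p` and `8 K ≤ p`. -/
theorem bad (p K : ℕ) [hp : Fact p.Prime] (hK : 8 * K ≤ p) :
    ∃ (n : ℕ) (c : Fin n → Pt p) (R : Idx p × Fin n → Bool), 0 < n ∧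
      ∀ (M : ℕ), M ≤ 2 ^ K → ∀ (α : Fin n → Fin n → Fin M)
      (β : Fin n → Fin n → Fin M) (γ : Fin n → Fin n → Fin M)
      (f : Fin M → Fin M → Fin M → Bool),
      n ^ 3 < 8 * p * (univ.filter (fun t : Fin n × Fin n × Fin n =>
        ¬ (G c c R t.1 t.2.1 t.2.2 ↔
          f (α t.1 t.2.1) (β t.1 t.2.2) (γ t.2.1 t.2.2) = true))).card := by
  classical
  have hcard : Fintype.card (Pt p × Fin (8 * (8 ^ K + 1))) = p * p * (8 * (8 ^ K + 1)) := by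
    simp [Fintype.card_prod, ZMod.card]
  let e : Fin (p * p * (8 * (8 ^ K + 1))) ≃ Pt p × Fin (8 * (8 ^ K + 1)) :=
    (Fintype.equivFinOfCardEq hcard).symm
  obtain ⟨R, hR⟩ := core (p := p) K (8 ^ K + 1) _ hK rfl rfl e
  refine ⟨_, fun x => (e x).1, R, ?_, ?_⟩
  · have := hp.out.pos
    positivity
  · intro M hM α β γ f
    have h := hR (fun x y => Fin.castLE hM (α x y)) (fun x y => Fin.castLE hM (β x y))
      (fun x y => Fin.castLE hM (γ x y))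
      (fun i j k => if h : i.1 < M ∧ j.1 < M ∧ k.1 < M then
        f ⟨i.1, h.1⟩ ⟨j.1, h.2.1⟩ ⟨k.1, h.2.2⟩ else false)
    refine lt_of_lt_of_eq h ?_
    congr 2
    ext t
    simp

end Pool.Agent.Lib.P1f4382
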